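import Pool.Agent.Lib.H2W.A7
import Pool.Agent.Lib.H2K.KC6

/-!
# Hopf conjecture for metrics whose curvature is nonpositive on complex two-vectors of rank at most 2k and, on one
complex hyperplane at each point, on those of rank at most 2k'

A closed smooth manifold is `H79G.Closed d`, a Riemannian metric on it is a compatible family of
smooth positive definite matrices `g.mat p` in the charts (`H31R.Ch.Metric`), `H79G.riem` is its
curvature tensor in coordinates (`R i j i j` is the sectional curvature for orthonormal
coordinate vectors).  `H79G.IsEulerCharacteristic d M χ` is the Poincaré-Hopf description of the Euler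
characteristic: smooth vector fields with only nondegenerate zeros exist, and `χ` is the sum of the
indices of the zeros of each of them.
`H2K.complexCurvK R z w` is the value `R(ω, ω̄)` for the complex two-vector
`ω = z 0 ∧ w 0 + ... + z (k-1) ∧ w (k-1)`; for `k = 1` it is the complex sectional curvature.
`H2W.TwoVectorNonpos n k k' R`: `R(ω, ω̄) ≤ 0` for all these `ω`, and, if `n ≥ 4`, there is a complex hyperplane (it may
depend on the point) such that `R(ω, ω̄) ≤ 0` for all `ω = z 0 ∧ w 0 + ... + z (k'-1) ∧ w (k'-1)` with all
vectors in this hyperplane.  For `k' = k` the second condition is part of the first one.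

The Gauss-Bonnet-Chern theorem is proved in `Pool/Agent/Lib/H79G`, the pointwise theorem in
`Pool/Agent/Lib/H87/HopfHP` and `Pool/Agent/Lib/H2W` (paper proof: `Lib/H2W/PROOF.md`, and `Lib/H2K/PROOF.md` for the
elimination), for `n = 3`, `k = 1` in `Pool/Agent/Lib/H87/HopfKC`.
-/

open H31R H79G H2K H2W

namespace Pool.Agent.Results.MP_5a30bb_gt.ComplexTwoVectors

/-- **Closed Riemannian `2n`-manifolds with `R(ω, ω̄) ≤ 0` for the complex two-vectors `ω` of rank at most `2k`
and, if `n ≥ 4`, for those of rank at most `2k'` on one complex hyperplane at each point**, `n ≤ 3` or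
`2n ≤ k + 2k' + 1`: `(-1)^n χ(M) ≥ 0`.  It is positive if at some point the curvature tensor plus `h > 0` times the
tensor of constant curvature one still has this property, or if `n = 3` and all real sectional curvatures at some
point are negative.  (`k = 1`, `k' = n - 1`: nonpositive complex sectional curvature and all two-vectors on
the hyperplane.) -/
theorem result (n k k' : ℕ) (hk : 1 ≤ k) (hnk : n ≤ 3 ∨ 2 * n ≤ k + 2 * k' + 1)
    (M : Closed (2 * n)) (g : Ch.Metric (2 * n) M.carrier)
    (hK : ∀ p : M.carrier, ∀ y ∈ (chartAt (EE (2 * n)) p).target,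
      TwoVectorNonpos n k k' (riem (g.mat p) y)) :
    ∃ χ : ℤ, IsEulerCharacteristic (2 * n) M.carrier χ ∧ 0 ≤ (-1) ^ n * χ ∧
      ((∃ m : M.carrier,
        (∃ h : ℝ, 0 < h ∧ TwoVectorNonpos n k k'
          (fun i j p q => riem (g.mat m) (chartAt (EE (2 * n)) m m) i j p q +
            h * (g.mat m (chartAt (EE (2 * n)) m m) i p * g.mat m (chartAt (EE (2 * n)) m m) j q -
              g.mat m (chartAt (EE (2 * n)) m m) i q * g.mat m (chartAt (EE (2 * n)) m m) j p))) ∨
        (n = 3 ∧ ∀ x v : Fin (2 * n) → ℝ, LinearIndependent ℝ ![x, v] →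
          realCurv (riem (g.mat m) (chartAt (EE (2 * n)) m m)) x v < 0)) →
        0 < (-1) ^ n * χ) :=
  a6_main coreK kc6_six kc6_neg n k k' hk hnk M g hK

end Pool.Agent.Results.MP_5a30bb_gt.ComplexTwoVectors
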