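import Pool.Agent.Lib.H46X.B3
import Pool.Agent.Lib.H46X.B4
import Pool.Agent.Lib.H79G.F1

/-!
# Hopf conjecture near real or complex hyperbolic curvature, in all dimensions

A closed smooth manifold is `H79G.Closed d`, a Riemannian metric on it is a compatible family of
smooth positive definite matrices `g.mat p` in the charts (`H31R.Ch.Metric`), `H79G.riem` is its
curvature tensor in coordinates.  `H79G.IsEulerCharacteristic d M χ` is the Poincaré-Hopf description
of the Euler characteristic: smooth vector fields with only nondegenerate zeros exist, and `χ` is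
the sum of the indices of the zeros of each of them.

`sp H u v = ∑ H i j u i v j`, `areaG H u v = H(u,u) H(v,v) - H(u,v)^2`, `ev R u v u v = R(u,v,u,v)`.
The pointwise theorems are `H46X.gb_cx_rel` (complex type) and `H46X.pointwise` (real type), the
Gauss-Bonnet-Chern theorem is proved in `Pool/Agent/Lib/H79G`.
-/

namespace Pool.Agent.Results.MP_5a30bb_gt.HyperbolicPinching

open Pool.Agent.H69Hopf Pool.Agent.H46X H31R H79G

/-- `R` is close to the curvature tensor of real hyperbolic space, in the sense of the quadratic form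
with matrix `H`: `-area_H(u,v) ≤ R(u,v,u,v) ≤ -δ area_H(u,v)`, `δ = pinchConst n`. -/
def RealType (n : ℕ) (H : Matrix (Fin (2 * n)) (Fin (2 * n)) ℝ) (R : Arr (2 * n)) : Prop :=
  ∀ u v : Fin (2 * n) → ℝ,
    -areaG H u v ≤ ev R u v u v ∧ ev R u v u v ≤ -(pinchConst n * areaG H u v)

/-- `R(u,v,u,v)` is close to `-(k area_H(u,v) + 3 l H(Ju,v)^2)`, `J` a complex structure with
`H(Ju,Jv) = H(u,v)`, `k, l ≥ 0`, `max k (2 l) = 1` (real hyperbolic curvature for `l = 0`, complex
hyperbolic curvature for `k = l`): the difference is at most `ε area_H(u,v)`, `ε = cxConst n`. -/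
def ComplexType (n : ℕ) (H : Matrix (Fin (2 * n)) (Fin (2 * n)) ℝ) (R : Arr (2 * n)) : Prop :=
  ∃ (J : Matrix (Fin (2 * n)) (Fin (2 * n)) ℝ) (k l : ℝ), J * J = -1 ∧ J.transpose * H * J = H ∧
    0 ≤ k ∧ 0 ≤ l ∧ max k (2 * l) = 1 ∧ ∀ u v : Fin (2 * n) → ℝ,
      |ev R u v u v + k * areaG H u v + 3 * l * sp H (J.mulVec u) v ^ 2| ≤ cxConst n * areaG H u v

/-- The pointwise condition: `R` is of real or of complex type for a positive semidefinite `H`. -/
def Hyperbolic (n : ℕ) (R : Arr (2 * n)) : Prop :=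
  ∃ H : Matrix (Fin (2 * n)) (Fin (2 * n)) ℝ, H.PosSemidef ∧ (RealType n H R ∨ ComplexType n H R)

theorem pos_of_type (n : ℕ) (hn : 3 ≤ n) {R : Arr (2 * n)} (hR : IsAlgCurv R)
    {H : Matrix (Fin (2 * n)) (Fin (2 * n)) ℝ} (hH : H.PosDef)
    (h : RealType n H R ∨ ComplexType n H R) : 0 < (-1) ^ n * gaussBonnet n R := by
  rcases h with h | ⟨J, k, l, hJ, hJH, hk, hl, hkl, h⟩
  · obtain ⟨F, hF⟩ := b3_frame hH
    refine b3_pos n (F := F) ?_
    refine (pointwise n hn _ (frame_algCurv hR F) (pinchConst n) 1 one_pos (by rw [mul_one])).1 ?_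
    intro x y
    rw [sec_frame, ← area_frame hF]
    obtain ⟨h1, h2⟩ := h (F.mulVec x) (F.mulVec y)
    constructor
    · rw [neg_one_mul]
      exact h1
    · rw [neg_mul]
      exact h2
  · exact gb_cx_rel n (by omega) hH hJ hJH hR hk hl hkl h

theorem bdd_of_type (n : ℕ) {R : Arr (2 * n)} {H : Matrix (Fin (2 * n)) (Fin (2 * n)) ℝ}
    (hs : H.transpose = H) (h : RealType n H R ∨ ComplexType n H R) {u : Fin (2 * n) → ℝ}
    (hu : H.mulVec u = 0) (x v : Fin (2 * n) → ℝ) :
    ∃ C : ℝ, ∀ s : ℝ, |ev R (x + s • u) v (x + s • u) v| ≤ C := by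
  rcases h with h | ⟨J, k, l, hJ, hJH, hk, hl, hkl, h⟩
  · refine ⟨|areaG H x v| + |pinchConst n * areaG H x v|, fun s => ?_⟩
    obtain ⟨h1, h2⟩ := h (x + s • u) v
    rw [b3_area_null hs hu] at h1 h2
    rw [abs_le]
    constructor
    · linarith [le_abs_self (areaG H x v), abs_nonneg (pinchConst n * areaG H x v)]
    · linarith [neg_abs_le (pinchConst n * areaG H x v), abs_nonneg (areaG H x v)]
  · refine ⟨|cxConst n * areaG H x v| +
      |k * areaG H x v + 3 * l * sp H (J.mulVec x) v ^ 2|, fun s => ?_⟩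
    have h1 := h (x + s • u) v
    rw [b3_area_null hs hu, b3_J_null hs hJ hJH hu] at h1
    have h2 := abs_le.1 h1
    rw [abs_le]
    constructor
    · linarith [h2.1, le_abs_self (cxConst n * areaG H x v),
        le_abs_self (k * areaG H x v + 3 * l * sp H (J.mulVec x) v ^ 2)]
    · linarith [h2.2, le_abs_self (cxConst n * areaG H x v),
        neg_abs_le (k * areaG H x v + 3 * l * sp H (J.mulVec x) v ^ 2)]

theorem pointwise_sign (n : ℕ) (hn : 3 ≤ n) {R : Arr (2 * n)} (hR : IsAlgCurv R)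
    (h : Hyperbolic n R) :
    0 ≤ (-1) ^ n * gaussBonnet n R ∧
      ((∀ u : Fin (2 * n) → ℝ, u ≠ 0 → ∃ v : Fin (2 * n) → ℝ, ev R u v u v ≠ 0) →
        0 < (-1) ^ n * gaussBonnet n R) := by
  obtain ⟨H, hH, h⟩ := h
  by_cases hp : H.PosDef
  · exact ⟨(pos_of_type n hn hR hp h).le, fun _ => pos_of_type n hn hR hp h⟩
  · obtain ⟨u, hu0, hu⟩ := exists_null hH hp
    have hb := bdd_of_type n (b3_transpose hH.isHermitian) h hu
    refine ⟨by rw [gb_null n hR u hu0 hb, mul_zero], fun hv => ?_⟩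
    obtain ⟨v, hv⟩ := hv u hu0
    exact absurd (b2_null hR u hb v u v) hv

/-- **Closed Riemannian manifolds with curvature near real or complex hyperbolic curvature.** Let `M`
be a closed Riemannian manifold of dimension `2 n ≥ 6` whose curvature tensor satisfies `Hyperbolic`
at every point. Then `0 ≤ (-1)^n χ(M)`, and `0 < (-1)^n χ(M)` if at some point there is no `u ≠ 0`
with `R(u,v,u,v) = 0` for all `v`. -/
theorem result (n : ℕ) (hn : 3 ≤ n) (M : Closed (2 * n)) (g : Ch.Metric (2 * n) M.carrier)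
    (hK : ∀ p : M.carrier, ∀ y ∈ (chartAt (EE (2 * n)) p).target,
      Hyperbolic n (riem (g.mat p) y)) :
    ∃ χ : ℤ, IsEulerCharacteristic (2 * n) M.carrier χ ∧ 0 ≤ (-1) ^ n * χ ∧
      ((∃ m : M.carrier, ∀ u : Fin (2 * n) → ℝ, u ≠ 0 → ∃ v : Fin (2 * n) → ℝ,
        ev (riem (g.mat m) (chartAt (EE (2 * n)) m m)) u v u v ≠ 0) → 0 < (-1) ^ n * χ) := by
  have hdet : ∀ (G E : Mt (2 * n)), E.transpose * G * E = 1 → 0 < E.det ^ 2 := by
    intro G E hE
    have h1 := congrArg Matrix.det hE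
    rw [Matrix.det_mul, Matrix.det_mul, Matrix.det_one] at h1
    have h2 : E.det ≠ 0 := by
      intro h0
      rw [h0, mul_zero] at h1
      exact zero_ne_one h1
    positivity
  obtain ⟨χ, h1, h2, h3⟩ := sign_principle n M g ((-1) ^ n) fun p y hy E hE => by
    rw [gb_frameR, mul_left_comm]
    exact mul_nonneg (hdet _ E hE).le
      (pointwise_sign n hn (riem_algCurv (metOn g p) hy) (hK p y hy)).1
  refine ⟨χ, h1, by exact_mod_cast h2, ?_⟩
  rintro ⟨m, hm⟩
  have hm' := mem_chart_target (EE (2 * n)) m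
  have h4 := h3 ⟨m, fun E hE => by
    rw [gb_frameR, mul_left_comm]
    exact mul_pos (hdet _ E hE)
      ((pointwise_sign n hn (riem_algCurv (metOn g m) hm') (hK m _ hm')).2 hm)⟩
  exact_mod_cast h4

end Pool.Agent.Results.MP_5a30bb_gt.HyperbolicPinching
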