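import Pool.Agent.Lib.H11S.ClosedFrame
import Pool.Agent.Lib.H79G.F1
import Pool.Agent.Lib.H72S.Small
import Pool.Agent.Lib.H44D.F4
import Pool.Agent.Lib.H44D.F5
import Pool.Agent.Lib.H46U.Sec
import Pool.Agent.Lib.H39G.O
import Pool.Agent.Lib.H39S.Six
import Pool.Agent.Lib.H69O.Odd
import Pool.Agent.Lib.H7HG.Main
import Pool.Agent.Lib.H39L.Main
import Pool.Agent.Lib.H35R.M

/-!
# MP_5a30bb_gt: a class of nonpositive curvature tensors, closed manifolds of every even dimension

For an algebraic curvature tensor `R` on `ℝ^(2 n)` put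
`firstKind R w = ∑ R i j k l * w i j * w k l` (the quadratic form of the curvature operator on
bivectors), `act R A B = ∑ R i j k l * A i k * B j l` (the quadratic form of minus the curvature
operator of the second kind, on traceless symmetric matrices) and `sec R u v = R (u, v, u, v)` (the
sectional curvature times the squared area).  `SphereNonpos R` says that
`act R S S ≤ ∑ k, act R (B k) (B k)` whenever `S` is positive semidefinite, the `B k` are symmetric
and `∑ k, B k (x, x) ^ 2 = S (x, x) ^ 2` for all `x`.  These conditions do not depend on the basis;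
the components below are those in the charts, `G` is the matrix of the metric, and
`kn h i j k l = h i k * h j l - h i l * h j k`, so that `kn G` is the tensor of constant curvature one.
`sepT x y = ∑ a, (x a ∧ y a) ⊗ (x a ∧ y a)` is a sum of squares of simple bivectors.

`SumNonpos G t R`: `R` is a sum `R₁ + R₂` of algebraic curvature tensors, where the curvature operator
of `R₁` is nonpositive, and `R₂ + t • kn G` satisfies `SphereNonpos` or the curvature operator of the
second kind of `R₂` is at most `-t`.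

`Near h R`: `h` is positive semidefinite and `R = P₁ - P₂ - kn h - ∑ j, kn (A j) - S`, where `P₁`, `P₂`
are algebraic curvature tensors with nonnegative curvature operator, `sec P₁ ≤ b ^ 2 * sec (kn h)`,
`sec P₂ ≤ c ^ 2 * sec (kn h)`, the `A j` are symmetric with `∑ j, A j (u, u) ^ 2 ≤ a ^ 2 * h (u, u) ^ 2`,
`S` is a sum of squares of simple bivectors of any size, and `2 a + 2 b + c ≤ 1 / 6`, or there are no
`P₂`, `A j` and `32 b ^ 2 ≤ 1`.

`Diagonal R`: in some basis of the tangent space (any basis, not related to the metric)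
`R = ∑_B m_B ⊗ m_B - ∑_(i < j) w i j (f^i ∧ f^j) ⊗ (f^i ∧ f^j)`, with any real numbers `w i j` and simple
two-forms `m_B` supported in disjoint sets `B` of basis vectors (the sets on which `t` is constant; `m_B` is
the restriction of `a ∧ b` to `B`).

`SplitSimple R`: the curvature operator of `R` is at most `m ⊗ m`, `m` a simple two-form, and
(a) `ker m` has a basis `e_i` with `R(x, e_i, e_j, e_k) = 0` for all `x` if `i` is not `j` or `k`, or
(b) `ker m` is the direct sum of subspaces `U_j` with `R(x, y, z, w) = 0` for `x, y, z, w` in the `U_j`, not all in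
the same one, and some `U_j` has odd dimension, or each `U_j` has dimension at most four or `R = - w_j ⊗ w_j` on it
with a two-form `w_j`. In (a) negative sectional curvature is possible in all dimensions; in (b) nothing is assumed
on the components of `R` with an argument outside `ker m`. In dimension six (b) is the condition that the
curvature operator of `R` is at most the square of a simple two-form (`splitSimple_six`).

`RelPinch r R`: `R = Q - P`, where `P`, `Q` are sums of squares of simple two-forms with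
`N * sec Q ≤ 4 * r * sec P` in dimension `N ≥ 4` (for `N = 2 n`: `n sec Q ≤ 2 r sec P`).

`Good G R`: (1) `SumNonpos G 0 R`, or (2) `Near h R` for some `h`, or (3) `R` has nonpositive sectional
curvature and `Diagonal R`, or (4) `R` has nonpositive sectional curvature and `SplitSimple R`, or
(5) `RelPinch 1 R`. `GoodPos G R`: the same with `SumNonpos G t R`, `t > 0`, with `h` positive definite, with `RelPinch r R`, `r < 1`, and with negative sectional curvature in (3), (4), (5).

Condition (3) (`Lib/H39G/PROOF.md`, `Lib/H39G/O.lean`): besides the form of `R` the only hypothesis is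
nonpositive sectional curvature, there is no pinching, and the curvature operator need not be nonpositive. The
integrand is a sum over the perfect matchings of the basis; the inequality is reduced to one about the three
matchings of four vertices by a symmetrization. Condition (4) (`Lib/H7HB/PROOF.md`, `Lib/H7HG`, `Lib/H39L`): the
integrand is a sum of squares of coefficients of the Pfaffian of `ω_x = ∑ x_k w_k`, `m ⊗ m - R = ∑ w_k ⊗ w_k`,
minus a sum of squares of coefficients of `m ∧ ω_x^(n-1)`; each of the latter gives a plane on which the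
hypothesis is used (they are zero if some `U_j` has odd dimension, `Lib/H69O/Odd.lean`). Condition (5)
(`Lib/H35R/PROOF.md`): a convex sequence of mixed forms.

`result`: a closed Riemannian manifold of dimension `2 n` whose curvature tensor is at each point in
the class `Good` has `(-1) ^ n * χ ≥ 0`, and `(-1) ^ n * χ > 0` if it is at some point in the class
`GoodPos`.

`sec_nonpos`: the class `Good` is contained in that of nonpositive sectional curvature.

`pinching`: closed manifolds with curvature operator at least `-k` and sectional curvatures at most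
`-(31 / 32) * k`, `k ≥ 0` (contained in (2)).

`pointwise`: on these classes `(-1) ^ n` times the Gauss-Bonnet-Chern integrand is nonnegative,
respectively positive (`pointwise_sum`: with a bound, for the second condition).

`gauss`: closed manifolds whose curvature tensor is given by Gauss equations.

`separable`: closed manifolds whose curvature operator is bounded above by `∑ b, (P b - kn (L b))`, where
`L b` is positive semidefinite and `P b` is a sum of squares of simple bivectors whose value on the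
bivector `u ∧ v` is at most `L b (u, u) * L b (v, v) / 2` (for instance by `-h • kn G + P`, with `P`
a sum of squares of simple bivectors whose sectional curvatures are at most `h / 2`).

`pinching_two`: closed manifolds with curvature operator at least `-k - Q` and sectional curvatures of
`R + Q` at most `-(1 - b ^ 2) * k`, where `Q` is an algebraic curvature tensor with nonnegative
curvature operator and small sectional curvatures.
-/

open scoped Manifold ContDiff
open Set H31R MeasureTheory

namespace Pool.Agent.Results.MP_5a30bb_gt.PointwiseClasses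

open Pool.Agent.H69Hopf Pool.Agent.H69Gauss Pool.Agent.H88S Pool.Agent.H11S
  Pool.Agent.H11S.Closed Pool.Agent.H72S H79G Pool.Agent.H44D

/-- The curvature operator of `R` is at least `-k` and its sectional curvatures are at most
`-(31 / 32) * k`, with respect to the metric `G`. -/
def Pinched {N : ℕ} (G : Mat N) (k : ℝ) (R : Arr N) : Prop :=
  (∀ w : Mat N, w.transpose = -w → -(k * firstKind (kn G) w) ≤ firstKind R w) ∧
    ∀ u v, sec R u v ≤ -(31 / 32) * k * sec (kn G) u v

/-- In some basis (the columns of `E`) the components of `R` are those of the sum of the squares of simple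
two-forms supported in disjoint sets of basis vectors (the sets on which `t` is constant; the forms are the
restrictions of `a ∧ b` to these sets) minus a diagonal tensor, with any coefficients `w i j`. -/
def Diagonal {N : ℕ} (R : Arr N) : Prop :=
  ∃ (E : Mat N) (t : Fin N → ℕ) (w : Fin N → Fin N → ℝ) (a b : Fin N → ℝ), E.det ≠ 0 ∧
    (∀ i j, w i j = w j i) ∧ ∀ i j k l, frameR R E i j k l =
      (if t i = t j ∧ t k = t l ∧ t i = t k then (a i * b j - a j * b i) * (a k * b l - a l * b k)
        else 0) - w i j * kn (1 : Mat N) i j k l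

/-- The block with the number `c`: the indices different from `p, q` on which `t` has the value `c`. -/
def block {N : ℕ} (p q : Fin N) (t : Fin N → ℕ) (c : ℕ) : Finset (Fin N) :=
  Finset.univ.filter fun i => i ≠ p ∧ i ≠ q ∧ t i = c

/-- In some basis (the columns of `E`, with dual basis `e`): the curvature operator of `R` is at most the square
of `m = e p ∧ e q`, the other basis vectors are a basis of `ker m`, and (a) `R x i j k = 0` for all `x` if `i, j, k`
are different from `p, q` and `i` is not `j` or `k`, or (b) the other basis vectors are divided into blocks, the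
component `R i j k l`, `i, j, k, l` different from `p, q`, is zero unless `i, j, k, l` are in the same block, and some
block has an odd number of elements, or each block has at most four elements or `R = - v ⊗ v` on it. -/
def SplitSimple {N : ℕ} (R : Arr N) : Prop :=
  ∃ (E : Mat N) (p q : Fin N), E.det ≠ 0 ∧ p ≠ q ∧
    (∀ w : Mat N, w.transpose = -w → firstKind (frameR R E) w ≤ (w p q - w q p) ^ 2) ∧
    ((∀ x i j k, i ≠ p → i ≠ q → j ≠ p → j ≠ q → k ≠ p → k ≠ q → i ≠ j → i ≠ k →
      frameR R E x i j k = 0) ∨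
    ∃ t : Fin N → ℕ, ((∃ c, Odd (block p q t c).card) ∨ ∀ c, (block p q t c).card ≤ 4 ∨
      ∃ v : Fin N → Fin N → ℝ, ∀ i j k l, i ∈ block p q t c → j ∈ block p q t c →
        k ∈ block p q t c → l ∈ block p q t c → frameR R E i j k l = -(v i j * v k l)) ∧
    ∀ i j k l, i ≠ p → i ≠ q → j ≠ p → j ≠ q → k ≠ p → k ≠ q → l ≠ p → l ≠ q →
      frameR R E i j k l ≠ 0 → t i = t j ∧ t j = t k ∧ t k = t l)

/-- `R` is a sum of squares of simple two-forms with sectional curvatures at most `4 r / N` times those of the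
sum of squares of simple two-forms which is subtracted. -/
def RelPinch {N : ℕ} (r : ℝ) (R : Arr N) : Prop :=
  4 ≤ N ∧ ∃ (p q : ℕ) (x y : Fin p → Fin N → ℝ) (z w : Fin q → Fin N → ℝ),
    R = sepT z w - sepT x y ∧ ∀ u v, (N : ℝ) * sec (sepT z w) u v ≤ 4 * r * sec (sepT x y) u v

/-- The class of curvature tensors, with respect to the metric `G`. -/
def Good {N : ℕ} (G : Mat N) (R : Arr N) : Prop :=
  SumNonpos G 0 R ∨ (∃ h : Mat N, Near h R) ∨
    ((∀ u v, sec R u v ≤ 0) ∧ (Diagonal R ∨ SplitSimple R)) ∨ RelPinch 1 R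

/-- The class of curvature tensors, strict form. -/
def GoodPos {N : ℕ} (G : Mat N) (R : Arr N) : Prop :=
  (∃ t : ℝ, 0 < t ∧ SumNonpos G t R) ∨ (∃ h : Mat N, h.PosDef ∧ Near h R) ∨
    ((∀ u v, LinearIndependent ℝ ![u, v] → sec R u v < 0) ∧
      (Diagonal R ∨ SplitSimple R ∨ ∃ r < 1, RelPinch r R))

/-- The pointwise theorem for sums, with a bound. -/
theorem pointwise_sum (n : ℕ) (G E : Mat (2 * n)) (hE : E.transpose * G * E = 1) (R : Arr (2 * n))
    (t : ℝ) (ht : 0 ≤ t) (hR : SumNonpos G t R) :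
    (2 * t) ^ n * (2 * n).factorial ≤ (-1) ^ n * gaussBonnet n (frameR R E) :=
  sumNonpos_frame ht hE hR

/-- The pointwise theorem for `Near`. -/
theorem pointwise_near (n : ℕ) (G E h : Mat (2 * n)) (hE : E.transpose * G * E = 1)
    (R : Arr (2 * n)) (hR : Near h R) :
    0 ≤ (-1) ^ n * gaussBonnet n (frameR R E) ∧
      (h.PosDef → 0 < (-1) ^ n * gaussBonnet n (frameR R E)) :=
  ⟨near_nonneg (pull_near (fun i a => E a i) hR), fun hh =>
    near_pos (h := pullM (fun i a => E a i) h) (pullM_posDef hE hh) (pull_near _ hR)⟩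

theorem diagonal_blocks {N : ℕ} {R : Arr N} (h : Diagonal R) :
    ∃ (E : Mat N) (t : Fin N → ℕ) (w : Fin N → Fin N → ℝ) (a b : Fin N → ℝ), H39G.Blocks R E t w a b := by
  obtain ⟨E, t, w, a, b, h1, h2, h3⟩ := h
  refine ⟨E, t, w, a, b, h1, h2, fun i j k l => ?_⟩
  rw [h3 i j k l]
  unfold H39G.dmb H39G.wd H39G.dl kn
  simp only [Matrix.one_apply]
  ring

/-- The pointwise theorem for `Diagonal`. -/
theorem pointwise_diagonal (n : ℕ) (E : Mat (2 * n)) (R : Arr (2 * n)) (hR : Diagonal R) :
    ((∀ u v, sec R u v ≤ 0) → 0 ≤ (-1) ^ n * gaussBonnet n (frameR R E)) ∧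
      (E.det ≠ 0 → (∀ u v, LinearIndependent ℝ ![u, v] → sec R u v < 0) →
        0 < (-1) ^ n * gaussBonnet n (frameR R E)) := by
  obtain ⟨F, t, w, a, b, h⟩ := diagonal_blocks hR
  refine ⟨fun hK => ?_, fun hE hK => ?_⟩
  · rw [Pool.Agent.H46X.gb_frameR, mul_left_comm]
    exact mul_nonneg (sq_nonneg _) (H39G.blocks_nonneg h hK)
  · rw [Pool.Agent.H46X.gb_frameR, mul_left_comm]
    exact mul_pos (by positivity) (H39G.blocks_pos h hK)

theorem mm_sum {N : ℕ} (p q : Fin N) (w : Mat N) :
    ∑ i, ∑ j, H7HB.mm p q i j * w i j = w p q - w q p := by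
  unfold H7HB.mm
  simp [sub_mul, Finset.sum_sub_distrib, ite_mul, Finset.sum_ite_eq']

theorem splitSimple_cases {N : ℕ} {R : Arr N} (h : SplitSimple R) :
    H39L.OwnLegs R ∨ Pool.Agent.H69O.SplitGen R ∨ H7HG.SplitGen R := by
  obtain ⟨E, p, q, h1, h2, h3, h4 | ⟨t, h4 | h4, h5⟩⟩ := h
  · exact Or.inl ⟨E, p, q, h1, h2, fun v hv => by rw [mm_sum]; exact h3 v hv, h4⟩
  · exact Or.inr (Or.inl ⟨E, p, q, t, h1, h2, fun v hv => by rw [mm_sum]; exact h3 v hv, Or.inr h4, h5⟩)
  · exact Or.inr (Or.inr ⟨E, p, q, t, h1, h2, fun v hv => by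
      have h := h3 v hv
      rw [← mm_sum p q v] at h
      exact h, h4, h5⟩)

/-- In dimension six: the curvature operator is at most the square of the simple two-form `a ∧ b`. -/
theorem splitSimple_six {N : ℕ} (hN : N = 6) {R : Arr N} (a b : Fin N → ℝ)
    (h : ∀ w : Mat N, w.transpose = -w →
      firstKind R w ≤ (∑ i, ∑ j, (a i * b j - a j * b i) * w i j) ^ 2) : SplitSimple R := by
  obtain ⟨E, p, q, t, h1, h2, h3, h4, h5⟩ := Pool.Agent.Lib.H39S.splitSimple_six hN ⟨a, b, h⟩
  refine ⟨E, p, q, h1, h2, fun v hv => by have h := h3 v hv; rw [mm_sum] at h; exact h,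
    Or.inr ⟨t, Or.inr fun c => Or.inl ?_, h5⟩⟩
  have h6 : (block p q t c).card = 0 ∨ (block p q t c).card = 2 ∨ (block p q t c).card = 4 := h4 c
  omega

/-- The pointwise theorem for `SplitSimple`. -/
theorem pointwise_split (n : ℕ) (E : Mat (2 * n)) (R : Arr (2 * n)) (hA : IsAlgCurv R)
    (hR : SplitSimple R) :
    ((∀ u v, sec R u v ≤ 0) → 0 ≤ (-1) ^ n * gaussBonnet n (frameR R E)) ∧
      (E.det ≠ 0 → (∀ u v, LinearIndependent ℝ ![u, v] → sec R u v < 0) →
        0 < (-1) ^ n * gaussBonnet n (frameR R E)) := by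
  rw [Pool.Agent.H46X.gb_frameR, mul_left_comm]
  rcases splitSimple_cases hR with h | h | h
  · exact ⟨fun hK => mul_nonneg (sq_nonneg _) (H39L.ownLegs_nonneg hA hK h),
      fun hE hK => mul_pos (by positivity) (H39L.ownLegs_pos hA hK h)⟩
  · exact ⟨fun hK => mul_nonneg (sq_nonneg _) (Pool.Agent.H69O.splitGen_nonneg hA hK h),
      fun hE hK => mul_pos (by positivity) (Pool.Agent.H69O.splitGen_pos hA hK h)⟩
  · exact ⟨fun hK => mul_nonneg (sq_nonneg _) (H7HG.splitGen_nonneg hA hK h),
      fun hE hK => mul_pos (by positivity) (H7HG.splitGen_pos hA hK h)⟩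

/-- The pointwise theorem: the sign of the Gauss-Bonnet-Chern integrand on the two classes, in an
orthonormal frame `E`. -/
theorem pointwise (n : ℕ) (G E : Mat (2 * n)) (hG : G.PosDef) (hE : E.transpose * G * E = 1)
    (R : Arr (2 * n)) (hA : IsAlgCurv R) :
    (Good G R → 0 ≤ (-1) ^ n * gaussBonnet n (frameR R E)) ∧
      (GoodPos G R → 0 < (-1) ^ n * gaussBonnet n (frameR R E)) := by
  have hdet : E.det ≠ 0 := by
    intro h
    have h2 := congrArg Matrix.det hE
    rw [Matrix.det_mul, Matrix.det_mul, h, mul_zero, Matrix.det_one] at h2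
    exact zero_ne_one h2
  refine ⟨fun h => ?_, fun h => ?_⟩
  · rcases h with h | ⟨h, hh⟩ | ⟨hK, h | h⟩ | h
    · refine le_trans ?_ (pointwise_sum n G E hE R 0 le_rfl h)
      positivity
    · exact (pointwise_near n G E h hE R hh).1
    · exact (pointwise_diagonal n E R h).1 hK
    · exact (pointwise_split n E R hA h).1 hK
    · exact H35R.relPinch_frame E h
  · rcases h with ⟨t, ht, h⟩ | ⟨h, hh, h'⟩ | ⟨hK, h | h | ⟨r, hr, h⟩⟩
    · exact lt_of_lt_of_le (by positivity) (pointwise_sum n G E hE R t ht.le h)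
    · exact (pointwise_near n G E h hE R h').2 hh
    · exact (pointwise_diagonal n E R h).2 hdet hK
    · exact (pointwise_split n E R hA h).2 hdet hK
    · exact H35R.relPinch_frame_pos hdet hr h hK

/-- The class `Good` is contained in the class of nonpositive sectional curvature. -/
theorem sec_nonpos {N : ℕ} {G : Mat N} (hG : G.PosDef) {R : Arr N} (hA : IsAlgCurv R)
    (h : Good G R) (u v : Fin N → ℝ) : sec R u v ≤ 0 := by
  rcases h with h | ⟨h, hh⟩ | ⟨hK, -⟩ | h
  · exact Pool.Agent.H46U.sec_of_sum hG h u v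
  · exact Pool.Agent.H46U.sec_of_near hA hh u v
  · exact hK u v
  · exact H35R.relPinch_sec h u v

theorem posDef_mat {d : ℕ} {U : Set (EE d)} {G : EE d → Mt d} (h : MetOn U G) {y : EE d}
    (hy : y ∈ U) : (G y : Mat d).PosDef := by
  refine Matrix.PosDef.of_dotProduct_mulVec_pos ?_ fun v hv => ?_
  · ext i j
    rw [Matrix.conjTranspose_apply, star_trivial]
    exact h.symm y hy j i
  · have h1 := h.pos y hy v hv
    refine lt_of_lt_of_eq h1 ?_
    simp only [dotProduct, Matrix.mulVec, Finset.mul_sum, Pi.star_apply, star_trivial]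
    refine Finset.sum_congr rfl fun i _ => Finset.sum_congr rfl fun j _ => ?_
    ring

theorem result (n : ℕ) (M : Closed (2 * n)) (g : Ch.Metric (2 * n) M.carrier)
    (hK : ∀ p : M.carrier, ∀ y ∈ (chartAt (EE (2 * n)) p).target,
      Good (g.mat p y) (riem (g.mat p) y)) :
    ∃ χ : ℤ, IsEulerCharacteristic (2 * n) M.carrier χ ∧ 0 ≤ (-1) ^ n * χ ∧
      ((∃ m : M.carrier, GoodPos (g.mat m (chartAt (EE (2 * n)) m m))
        (riem (g.mat m) (chartAt (EE (2 * n)) m m))) → 0 < (-1) ^ n * χ) := by
  obtain ⟨χ, h1, h2, h3⟩ := sign_principle n M g ((-1) ^ n) fun p y hy E hE =>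
    (pointwise n _ E (posDef_mat (metOn g p) hy) hE _ (riem_algCurv (metOn g p) hy)).1 (hK p y hy)
  refine ⟨χ, h1, by exact_mod_cast h2, fun ⟨m, hm⟩ => ?_⟩
  have h4 : (0 : ℝ) < (-1) ^ n * χ := h3 ⟨m, fun E hE =>
    (pointwise n _ E (posDef_mat (metOn g m) (mem_chart_target _ m)) hE _
      (riem_algCurv (metOn g m) (mem_chart_target _ m))).2 hm⟩
  exact_mod_cast h4

/-- Pinching: the curvature operator is at least `-k` and the sectional curvatures are at most
`-(31 / 32) * k`. -/
theorem pinching (n : ℕ) (M : Closed (2 * n)) (g : Ch.Metric (2 * n) M.carrier)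
    (hK : ∀ p : M.carrier, ∀ y ∈ (chartAt (EE (2 * n)) p).target,
      ∃ k : ℝ, 0 ≤ k ∧ Pinched (g.mat p y) k (riem (g.mat p) y)) :
    ∃ χ : ℤ, IsEulerCharacteristic (2 * n) M.carrier χ ∧ 0 ≤ (-1) ^ n * χ ∧
      ((∃ m : M.carrier, ∃ k : ℝ, 0 < k ∧ Pinched (g.mat m (chartAt (EE (2 * n)) m m)) k
        (riem (g.mat m) (chartAt (EE (2 * n)) m m))) → 0 < (-1) ^ n * χ) := by
  obtain ⟨χ, h1, h2, h3⟩ := result n M g fun p y hy => by
    obtain ⟨k, hk, h⟩ := hK p y hy
    exact Or.inr (Or.inl ⟨_, near_pinch (posDef_mat (metOn g p) hy) (riem_algCurv (metOn g p) hy) hk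
      h.1 h.2⟩)
  refine ⟨χ, h1, h2, fun ⟨m, k, hk, h⟩ => h3 ⟨m, Or.inr (Or.inl ⟨Real.sqrt k •
    (g.mat m (chartAt (EE (2 * n)) m m) : Mat (2 * n)), ?_, ?_⟩)⟩⟩
  · exact (posDef_mat (metOn g m) (mem_chart_target _ m)).smul (Real.sqrt_pos.2 hk)
  · exact near_pinch (posDef_mat (metOn g m) (mem_chart_target _ m))
      (riem_algCurv (metOn g m) (mem_chart_target _ m)) hk.le h.1 h.2

/-- Gauss equations: `R = -h • kn G + R₁ + ∑ a, (∑ j, kn (A a j) - kn (L a))` with
`∑ j, A a j (x, x) ^ 2 ≤ L a (x, x) ^ 2` and `R₁` of nonpositive curvature operator. -/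
def GaussEq {N : ℕ} (G : Mat N) (h : ℝ) (R : Arr N) : Prop :=
  ∃ (R₁ : Arr N) (p q : ℕ) (L : Fin p → Mat N) (A : Fin p → Fin q → Mat N),
    IsAlgCurv R₁ ∧ (∀ w : Mat N, w.transpose = -w → firstKind R₁ w ≤ 0) ∧
    (∀ a, (L a).PosSemidef) ∧ (∀ a j, (A a j).IsSymm) ∧
    (∀ a x, ∑ j, bilin (A a j) x x ^ 2 ≤ bilin (L a) x x ^ 2) ∧
    R + h • kn G = R₁ + ∑ a, (∑ j, kn (A a j) - kn (L a))

theorem GaussEq.sumNonpos {N : ℕ} {G : Mat N} {h : ℝ} {R : Arr N} (hg : GaussEq G h R)
    (hR : IsAlgCurv R) : SumNonpos G h R := by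
  obtain ⟨R₁, p, q, L, A, hR₁, hyp₁, hL, hA, hLA, he⟩ := hg
  have hR₂ : IsAlgCurv (R - R₁) := by
    refine ⟨fun i j k l => ?_, fun i j k l => ?_, fun i j k l => ?_⟩
    · simp only [Pi.sub_apply]
      rw [hR.skew i j k l, hR₁.skew i j k l]
      ring
    · simp only [Pi.sub_apply]
      rw [hR.pair i j k l, hR₁.pair i j k l]
    · simp only [Pi.sub_apply]
      linear_combination hR.bianchi i j k l - hR₁.bianchi i j k l
  refine ⟨R₁, R - R₁, hR₁, hR₂, by abel, hyp₁, Or.inl ?_⟩
  have he' : R - R₁ + h • kn G = ∑ a, (∑ j, kn (A a j) - kn (L a)) := by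
    rw [← sub_eq_zero] at he ⊢
    rw [← he]
    abel
  rw [he']
  have hb : ∀ a x, 0 ≤ bilin (L a) x x := fun a x => by
    have h1 := (hL a).dotProduct_mulVec_nonneg x
    have h2 : bilin (L a) x x = star x ⬝ᵥ (L a).mulVec x := by
      unfold bilin
      simp only [dotProduct, Matrix.mulVec, Finset.mul_sum, Pi.star_apply, star_trivial, mul_assoc]
    rw [h2]
    exact h1
  have hs : ∀ a, SphereNonpos (∑ j, kn (A a j) - kn (L a)) := fun a =>
    sphereNonpos_kn (by
      have h1 := (hL a).isHermitian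
      rw [Matrix.IsHermitian, Matrix.conjTranspose_eq_transpose_of_trivial] at h1
      exact h1) (hb a) (hA a) (hLA a)
  have h0 : SphereNonpos (0 : Arr N) := fun p S B _ => by simp [act]
  exact Finset.sum_induction _ SphereNonpos (fun a b => sphereNonpos_add) h0 fun a _ => hs a

theorem gauss (n : ℕ) (M : Closed (2 * n)) (g : Ch.Metric (2 * n) M.carrier)
    (hK : ∀ p : M.carrier, ∀ y ∈ (chartAt (EE (2 * n)) p).target,
      GaussEq (g.mat p y) 0 (riem (g.mat p) y)) :
    ∃ χ : ℤ, IsEulerCharacteristic (2 * n) M.carrier χ ∧ 0 ≤ (-1) ^ n * χ ∧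
      ((∃ m : M.carrier, ∃ h : ℝ, 0 < h ∧
        GaussEq (g.mat m (chartAt (EE (2 * n)) m m)) h
          (riem (g.mat m) (chartAt (EE (2 * n)) m m))) → 0 < (-1) ^ n * χ) := by
  obtain ⟨χ, h1, h2, h3⟩ := result n M g fun p y hy =>
    Or.inl ((hK p y hy).sumNonpos (riem_algCurv (metOn g p) hy))
  exact ⟨χ, h1, h2, fun ⟨m, h, hh, hm⟩ => h3 ⟨m, Or.inl
    ⟨h, hh, hm.sumNonpos (riem_algCurv (metOn g m) (mem_chart_target _ m))⟩⟩⟩

/-- The curvature operator of `R + t • kn G` is at most that of `∑ b, (P b - kn (L b))`, where `L b` is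
positive semidefinite, `P b = ∑ a, (x b a ∧ y b a) ⊗ (x b a ∧ y b a)` and
`P b (u, v, u, v) ≤ L b (u, u) * L b (v, v) / 2` for all `u`, `v`. -/
def SepBound {N : ℕ} (G : Mat N) (t : ℝ) (R : Arr N) : Prop :=
  ∃ (m q : ℕ) (L : Fin m → Mat N) (x y : Fin m → Fin q → Fin N → ℝ),
    (∀ b, (L b).PosSemidef) ∧
    (∀ b u v, sec (sepT (x b) (y b)) u v ≤ 1 / 2 * bilin (L b) u u * bilin (L b) v v) ∧
    ∀ w : Mat N, w.transpose = -w →
      firstKind (R + t • kn G) w ≤ firstKind (∑ b, (sepT (x b) (y b) - kn (L b))) w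

theorem SepBound.sumNonpos {N : ℕ} {G : Mat N} (hG : G.IsSymm) {t : ℝ} {R : Arr N}
    (hs : SepBound G t R) (hR : IsAlgCurv R) : SumNonpos G t R := by
  obtain ⟨m, q, L, x, y, hL, hsec, hle⟩ := hs
  have hsum : SphereNonpos (∑ b, (sepT (x b) (y b) - kn (L b))) := by
    have h0 : SphereNonpos (0 : Arr N) := fun p S B _ => by simp [act]
    refine Finset.sum_induction _ SphereNonpos (fun a b => sphereNonpos_add) h0 fun b _ => ?_
    have h1 := sphereNonpos_sep (isSymm_of_psd (hL b)) (bilin_nonneg (hL b)) (x b) (y b) (h := 1)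
      (hsec b)
    have h2 : sepT (x b) (y b) + (-1 : ℝ) • kn (L b) = sepT (x b) (y b) - kn (L b) := by
      rw [neg_one_smul, sub_eq_add_neg]
    rwa [h2] at h1
  have hcurv : IsAlgCurv (∑ b, (sepT (x b) (y b) - kn (L b))) :=
    Finset.sum_induction _ IsAlgCurv (fun _ _ => SECOND_algCurv_add) algCurv_zero fun b _ =>
      algCurv_sub (sepT_algCurv _ _) (algCurv_kn (isSymm_of_psd (hL b)))
  have hG' : IsAlgCurv (t • kn G) := SECOND_algCurv_smul (algCurv_kn hG) t
  set Q : Arr N := ∑ b, (sepT (x b) (y b) - kn (L b)) with hQ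
  refine ⟨R - (Q - t • kn G), Q - t • kn G, algCurv_sub hR (algCurv_sub hcurv hG'),
    algCurv_sub hcurv hG', by abel, fun w hw => ?_, Or.inl ?_⟩
  · have h1 := hle w hw
    have h2 : firstKind (R - (Q - t • kn G)) w = firstKind (R + t • kn G) w - firstKind Q w := by
      rw [← firstKind_sub]
      congr 1
      abel
    rw [h2]
    linarith
  · have h3 : Q - t • kn G + t • kn G = Q := by abel
    rw [h3]
    exact hsum

theorem separable (n : ℕ) (M : Closed (2 * n)) (g : Ch.Metric (2 * n) M.carrier)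
    (hK : ∀ p : M.carrier, ∀ y ∈ (chartAt (EE (2 * n)) p).target,
      SepBound (g.mat p y) 0 (riem (g.mat p) y)) :
    ∃ χ : ℤ, IsEulerCharacteristic (2 * n) M.carrier χ ∧ 0 ≤ (-1) ^ n * χ ∧
      ((∃ m : M.carrier, ∃ t : ℝ, 0 < t ∧
        SepBound (g.mat m (chartAt (EE (2 * n)) m m)) t
          (riem (g.mat m) (chartAt (EE (2 * n)) m m))) → 0 < (-1) ^ n * χ) := by
  obtain ⟨χ, h1, h2, h3⟩ := result n M g fun p y hy =>
    Or.inl ((hK p y hy).sumNonpos
      (Matrix.IsSymm.ext fun i j => (metOn g p).symm y hy j i) (riem_algCurv (metOn g p) hy))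
  exact ⟨χ, h1, h2, fun ⟨m, t, ht, hm⟩ => h3 ⟨m, Or.inl
    ⟨t, ht, hm.sumNonpos
      (Matrix.IsSymm.ext fun i j => (metOn g m).symm _ (mem_chart_target _ m) j i)
      (riem_algCurv (metOn g m) (mem_chart_target _ m))⟩⟩⟩

/-- The curvature operator of `R` is at least `-k - Q` and the sectional curvatures of `R + Q` are at
most `-(1 - b ^ 2) * k`, where `Q` is an algebraic curvature tensor with nonnegative curvature operator
and sectional curvatures at most `c ^ 2 * k`. -/
def PinchedTwo {N : ℕ} (G : Mat N) (b c k : ℝ) (R : Arr N) : Prop :=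
  ∃ Q : Arr N, IsAlgCurv Q ∧ (∀ w : Mat N, w.transpose = -w → 0 ≤ firstKind Q w) ∧
    (∀ u v, sec Q u v ≤ c ^ 2 * k * sec (kn G) u v) ∧
    (∀ w : Mat N, w.transpose = -w →
      -(k * firstKind (kn G) w + firstKind Q w) ≤ firstKind R w) ∧
    ∀ u v, sec R u v + sec Q u v ≤ -(1 - b ^ 2) * k * sec (kn G) u v

/-- Two-sided version. -/
theorem pinching_two (n : ℕ) (M : Closed (2 * n)) (g : Ch.Metric (2 * n) M.carrier) {b c : ℝ}
    (hb : 0 < b) (hc : 0 < c) (hbc : 2 * b + c < 1 / 6)
    (hK : ∀ p : M.carrier, ∀ y ∈ (chartAt (EE (2 * n)) p).target,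
      ∃ k : ℝ, 0 ≤ k ∧ PinchedTwo (g.mat p y) b c k (riem (g.mat p) y)) :
    ∃ χ : ℤ, IsEulerCharacteristic (2 * n) M.carrier χ ∧ 0 ≤ (-1) ^ n * χ ∧
      ((∃ m : M.carrier, ∃ k : ℝ, 0 < k ∧ PinchedTwo (g.mat m (chartAt (EE (2 * n)) m m)) b c k
        (riem (g.mat m) (chartAt (EE (2 * n)) m m))) → 0 < (-1) ^ n * χ) := by
  obtain ⟨χ, h1, h2, h3⟩ := result n M g fun p y hy => by
    obtain ⟨k, hk, Q, hQ, q0, q1, r0, r1⟩ := hK p y hy
    exact Or.inr (Or.inl ⟨_, near_two (posDef_mat (metOn g p) hy) (riem_algCurv (metOn g p) hy) hQ hk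
      hb hc hbc q0 q1 r0 r1⟩)
  refine ⟨χ, h1, h2, fun ⟨m, k, hk, Q, hQ, q0, q1, r0, r1⟩ => h3 ⟨m, Or.inr (Or.inl ⟨Real.sqrt k •
    (g.mat m (chartAt (EE (2 * n)) m m) : Mat (2 * n)), ?_, ?_⟩)⟩⟩
  · exact (posDef_mat (metOn g m) (mem_chart_target _ m)).smul (Real.sqrt_pos.2 hk)
  · exact near_two (posDef_mat (metOn g m) (mem_chart_target _ m))
      (riem_algCurv (metOn g m) (mem_chart_target _ m)) hQ hk.le hb hc hbc q0 q1 r0 r1

end Pool.Agent.Results.MP_5a30bb_gt.PointwiseClasses
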