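import Pool.Agent.Lib.H56F.Main

/-!
# Closed manifolds of nonpositive curvature whose curvature tensor is warped between clusters

Definitions.
* `H79G.Closed d`: a compact Hausdorff smooth manifold of dimension `d` (Mathlib's `IsManifold`, modelled on
  `EE d = EuclideanSpace ℝ (Fin d)`).
* `H31R.Ch.Metric d M` (`Lib/H31R/Stat2.lean`): a smooth Riemannian metric, given by its matrices `g.mat p` in
  the charts `chartAt p`, compatible with the changes of coordinates.
* `H79G.riem G x` (`Lib/H79G/Stmt.lean`): the curvature tensor `R_{ijkl}` in coordinates, computed from the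
  Christoffel symbols `H31R.chr`; `R_{ijij}` is the sectional curvature for orthonormal `∂_i`, `∂_j`.
* `H60E.IsEinstein g lam`, `H60E.SecNonpos g` (`Lib/H60E/Stmt.lean`): `Ric = lam g`, and `R(v, w, v, w) ≤ 0` for
  all tangent vectors `v`, `w`.
* `H30K.IsCodazzi G U b` (`Lib/H30K/Stmt.lean`): `b` is a Codazzi tensor on the open set `U`: a smooth field of
  symmetric bilinear forms with `∇_k b_{ij} = ∇_i b_{kj}`.
* `H30K.DenseCodazzi`, `H30K.HarmonicCurvature`, `H30K.NegAt` (`Lib/H30K/Stmt.lean`): every nonempty open set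
  contains a nonempty open set with a Codazzi tensor which is not everywhere a multiple of the metric; the
  curvature tensor is divergence-free; all sectional curvatures at the point `m` are negative.
* `ev R u v u v = R(u, v, u, v)`, `area2 u v = |u| ^ 2 |v| ^ 2 - ⟨u, v⟩ ^ 2` (`Pool.Agent.H69Hopf`), `pinchConst k`
  (`Lib/H46X/B4.lean`): the smallest of `(4 k ^ 2 - 27) / (4 k ^ 2 + 12 k - 27)`, `1 - 1 / (37 √(2 k + 2))`,
  `1 - 1 / (10 ^ 13 (1 + log k) ^ 3)`; for `k = 3` it is `1 / 5`.
* `H79G.IsEulerCharacteristic d M χ` (`Lib/H79G/Stmt.lean`): smooth vector fields with only nondegenerate zeros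
  exist on `M`, and for each of them the sum of the indices of the zeros is `χ` (Poincaré-Hopf). That such an
  integer exists is part of the theorem.

The definitions below are those of this file. The proof (`Lib/H56E/PROOF.md`, `Lib/H56F/PROOF.md`): at a point at
which the curvature tensor is of cluster type, minus the curvature operator is the sum of its parts in the
clusters and of squares of simple two-forms `u ∧ v` with `u`, `v` in classes; the mixed Gauss-Bonnet forms of
these summands are products of Gauss-Bonnet integrands of subspaces of the clusters. For one cluster: `Few` by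
`Lib/H56C`, `Lib/H56D`, `Lib/H21C`, `Lib/H79T`; curvature operator `≤ 0`: `Lib/H56F/S6.lean`; complex
sectional curvature: `Lib/H87`, `Lib/H2K`; pinched: `Lib/H46X`.
-/

set_option autoImplicit false

open scoped ContDiff Manifold
open Set

namespace Pool.Agent.Results.MP_5a30bb_gt.WarpedClusters

open H31R H79G H60E H30K
open Pool.Agent.H69Hopf (ev area2)
open Pool.Agent.H46X (pinchConst)

/-- Arrays with four indices. -/
abbrev Arr4 (N : ℕ) : Type := Fin N → Fin N → Fin N → Fin N → ℝ

open Classical in
/-- The number of the indices at which `s` has the same value as at `i`. -/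
noncomputable def mult {N : ℕ} {α : Type} (s : Fin N → α) (i : Fin N) : ℕ := (Finset.univ.filter fun j => s j = s i).card

/-- **Few multiple values** of `s` on the set `C` of indices: (1) all multiplicities are at most `5`, and at most six indices of `C` have a multiple value, or (2) all multiplicities are at most `3`, at most one value has the
multiplicity `3`, and at most nine indices of `C` have a multiple value. (No restriction on the number of simple values.) -/
def Few {N : ℕ} {α : Type} (s : Fin N → α) (C : Finset (Fin N)) : Prop :=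
  ((∀ i ∈ C, mult s i ≤ 5) ∧ (C.filter fun i => 2 ≤ mult s i).card ≤ 6) ∨
    ((∀ i ∈ C, mult s i ≤ 3) ∧ (∀ i ∈ C, ∀ j ∈ C, mult s i = 3 → mult s j = 3 → s i = s j) ∧ (C.filter fun i => 2 ≤ mult s i).card ≤ 9)

/-- The curvature operator is nonpositive on the two-vectors `W` with indices in `C`. -/
def OperatorNonpos {N : ℕ} (R : Arr4 N) (C : Finset (Fin N)) : Prop :=
  ∀ W : Fin N → Fin N → ℝ, (∀ i j, W i j ≠ 0 → i ∈ C ∧ j ∈ C) → ∑ i, ∑ j, ∑ k, ∑ l, R i j k l * (W i j * W k l) ≤ 0

/-- `C` has at most seven elements, and the complex sectional curvature is nonpositive on it: `R(z, w, z̄, w̄) ≤ 0` for complex vectors `z`, `w` with indices in `C`. -/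
def ComplexNonpos {N : ℕ} (R : Arr4 N) (C : Finset (Fin N)) : Prop :=
  C.card ≤ 7 ∧ ∀ z w : Fin N → ℂ, (∀ i, i ∉ C → z i = 0 ∧ w i = 0) → (∑ i, ∑ j, ∑ k, ∑ l, (R i j k l : ℂ) * (z i * w j) * (starRingEnd ℂ) (z k * w l)).re ≤ 0

/-- Pinched curvature: the sectional curvatures on the space of the `m` indices in `C` are in some interval `[-A, -δ A]`, `A ≥ 0`, `δ = pinchConst (m / 2)`. -/
def PinchedOn {N : ℕ} (R : Arr4 N) (C : Finset (Fin N)) : Prop :=
  ∃ A : ℝ, 0 ≤ A ∧ ∀ u v : Fin N → ℝ, (∀ i, i ∉ C → u i = 0 ∧ v i = 0) →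
    -(A * area2 u v) ≤ ev R u v u v ∧ ev R u v u v ≤ -(pinchConst (C.card / 2) * A * area2 u v)

/-- The indices of the cluster `a`. -/
def cluster {N : ℕ} (t : Fin N → ℕ) (a : ℕ) : Finset (Fin N) := Finset.univ.filter fun i => t i = a

/-- **Curvature tensors of cluster type.** `s i` and `t i` are the class and the cluster of the index `i` (of an orthonormal basis); the clusters are unions of classes. (a) `R i j k l` is nonzero only if the classes of `i`, `j` are
those of `k`, `l` in some order: the curvature operator preserves the spaces `V_α ∧ V_β`, where `V_α` is the space of the class `α`. (b) Different clusters are warped: for `i`, `k` in the class `α` and `j`, `l` in the class `β` of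
another cluster `R i j k l = δ_ik P_α(j, l) + δ_jl P_β(i, k)` (no condition if one of the two classes has only one index). (c) Every cluster has few multiple classes, or nonpositive curvature operator, or at most seven indices and
nonpositive complex sectional curvature, or pinched sectional curvatures. -/
def ClusterType {N : ℕ} (R : Arr4 N) : Prop :=
  ∃ (s t : Fin N → ℕ) (P : ℕ → Fin N → Fin N → ℝ), (∀ i j, s i = s j → t i = t j) ∧
    (∀ i j k l, R i j k l ≠ 0 → (s i = s k ∧ s j = s l) ∨ (s i = s l ∧ s j = s k)) ∧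
    (∀ i j k l, t i ≠ t j → s i = s k → s j = s l → R i j k l = (if i = k then P (s i) j l else 0) + (if j = l then P (s j) i k else 0)) ∧
    ∀ a, Few s (cluster t a) ∨ OperatorNonpos R (cluster t a) ∨ ComplexNonpos R (cluster t a) ∨ PinchedOn R (cluster t a)

variable {d : ℕ}

/-- The curvature tensor `R` is of cluster type with respect to some basis (the columns of `E`) which is orthonormal for the scalar product `G`. -/
def ClusterAt (G : Matrix (Fin d) (Fin d) ℝ) (R : Arr4 d) : Prop :=
  ∃ E : Matrix (Fin d) (Fin d) ℝ, E.transpose * G * E = 1 ∧ ClusterType (N := d) fun i j k l => ∑ a, ∑ b, ∑ c, ∑ e, R a b c e * E a i * E b j * E c k * E e l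

/-- `β` = the eigenvalues of the bilinear form `b` with respect to the scalar product `G`, the columns of `E` = orthonormal eigenvectors. -/
def Eigen (G b E : Matrix (Fin d) (Fin d) ℝ) (β : Fin d → ℝ) : Prop := E.transpose * G * E = 1 ∧ E.transpose * b * E = Matrix.diagonal β

/-- The bilinear form `b` has few multiple eigenvalues with respect to `G`. -/
def FewAt (G b : Matrix (Fin d) (Fin d) ℝ) : Prop := ∃ (E : Matrix (Fin d) (Fin d) ℝ) (β : Fin d → ℝ), Eigen G b E β ∧ Few β Finset.univ

/-- The bilinear form `b` has exactly two eigenvalues with respect to `G`, both of multiplicity at most `5`. -/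
def TwoAt (G b : Matrix (Fin d) (Fin d) ℝ) : Prop :=
  ∃ (E : Matrix (Fin d) (Fin d) ℝ) (β : Fin d → ℝ), Eigen G b E β ∧ (∃ p q, β p ≠ β q ∧ ∀ i, β i = β p ∨ β i = β q) ∧ ∀ i, mult β i ≤ 5

variable {M : Type} [TopologicalSpace M] [ChartedSpace (EE d) M]

/-- Every nonempty open set of `M` contains a nonempty open set `U` such that (1) at some point of `U` the curvature tensor is of cluster type, or there is a Codazzi tensor on `U` which (2) has few multiple eigenvalues at some point of
`U`, or (3) has exactly two eigenvalues, both of multiplicity at most `5`, at every point of `U`. (In the charts `chartAt p`.) -/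
def DenseClusters (g : Ch.Metric d M) : Prop :=
  ∀ p : M, ∀ V : Set (EE d), V ⊆ (chartAt (EE d) p).target → IsOpen V → V.Nonempty → ∃ U : Set (EE d), U ⊆ V ∧ IsOpen U ∧ U.Nonempty ∧
    ((∃ y ∈ U, ClusterAt (g.mat p y) (riem (g.mat p) y)) ∨
      ∃ b : EE d → Matrix (Fin d) (Fin d) ℝ, IsCodazzi (g.mat p) U b ∧ ((∃ y ∈ U, FewAt (g.mat p y) (b y)) ∨ ∀ y ∈ U, TwoAt (g.mat p y) (b y)))

theorem mult_cln {N : ℕ} (s : Fin N → ℕ) (i : Fin N) : mult s i = H56E.cln s i := by
  unfold mult H56E.cln
  exact congrArg Finset.card (Finset.filter_congr_decidable _ _ _)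

theorem few_cluster {N : ℕ} {s t : Fin N → ℕ} {a : ℕ} (h : Few s (cluster t a)) : H56E.AdmIn s t a := by
  unfold Few cluster at h
  simp only [mult_cln, Finset.mem_filter, Finset.mem_univ, true_and, Finset.filter_filter] at h
  rcases h with ⟨h1, h2⟩ | ⟨h1, h2, h3⟩
  · exact Or.inr (Or.inr ⟨h1, h2⟩)
  · exact Or.inr (Or.inl ⟨h1, fun i j hi hj => h2 i hi j hj, h3⟩)

theorem few_eigen {N : ℕ} {β : Fin N → ℝ} (h : Few β Finset.univ) : H56D.Adm β := by
  unfold Few at h
  simp only [Finset.mem_univ, forall_const] at h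
  rcases h with ⟨h1, h2⟩ | ⟨h1, h2, h3⟩
  · exact Or.inr (Or.inr ⟨h1, h2⟩)
  · exact Or.inr (Or.inl ⟨h1, h2, h3⟩)

theorem clust {N : ℕ} {R : Arr4 N} (h : ClusterType R) : H56F.Clust R := by
  obtain ⟨s, t, P, h1, h2, h3, h4⟩ := h
  refine ⟨s, t, P, h1, h2, h3, fun a => ?_⟩
  have hm : ∀ i, i ∈ cluster t a ↔ t i = a := fun i => by unfold cluster; simp
  rcases h4 a with h | h | ⟨h, h'⟩ | ⟨A, hA, h⟩
  · exact Or.inl (few_cluster h)
  · exact Or.inr (Or.inl fun W hW => h W fun i j hij => ⟨(hm i).2 (hW i j hij).1, (hm j).2 (hW i j hij).2⟩)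
  · exact Or.inr (Or.inr (Or.inl ⟨h, fun z w hzw => h' z w fun i hi => hzw i fun h5 => hi ((hm i).2 h5)⟩))
  · exact Or.inr (Or.inr (Or.inr ⟨A, hA, fun u v huv => h u v fun i hi => huv i fun h5 => hi ((hm i).2 h5)⟩))

theorem dense {g : Ch.Metric d M} (h : DenseClusters g) : H56F.DenseClust g := by
  intro p V h1 h2 h3
  obtain ⟨U, h4, h5, h6, h7⟩ := h p V h1 h2 h3
  refine ⟨U, h4, h5, h6, ?_⟩
  rcases h7 with ⟨y, hy, E, hE, hR⟩ | ⟨b, hb, ⟨y, hy, E, β, ⟨hE, hβ⟩, hF⟩ | hT⟩
  · exact Or.inl ⟨y, hy, E, hE, clust hR⟩
  · exact Or.inr ⟨b, hb, Or.inl ⟨y, hy, E, β, hE, hβ, few_eigen hF⟩⟩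
  · refine Or.inr ⟨b, hb, Or.inr fun y hy => ?_⟩
    obtain ⟨E, β, ⟨hE, hβ⟩, h8, h9⟩ := hT y hy
    exact ⟨E, β, hE, hβ, h8, h9⟩

/-- **The Hopf conjecture for Codazzi tensors and for curvature tensors of cluster type.** Let `M` be a closed manifold of dimension `2 n`, `n ≥ 1`, with a metric `g` of nonpositive sectional curvature. If `n = 3` suppose that every
nonempty open set contains a nonempty open set with a Codazzi tensor which is not everywhere a multiple of `g`, or that `g` is an Einstein metric, or that `M` is connected and the curvature is harmonic. Or suppose, for any `n`, that every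
nonempty open set contains a nonempty open set `U` such that the curvature tensor is of cluster type at some point of `U`, or there is a Codazzi tensor on `U` which has few multiple eigenvalues at some point of `U`, or exactly two
eigenvalues, of multiplicity at most `5`, at every point of `U`. Then `(-1) ^ n χ(M) ≥ 0`, and `> 0` if all sectional curvatures at some point are negative. If `n = 3`, `g` is Einstein and `χ(M) = 0`, then at every point the curvature
tensor is, in a suitable orthonormal frame `e`, that of a product of two three-dimensional space forms. -/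
theorem result {n : ℕ} (hn : 1 ≤ n) (M : Closed (2 * n)) (g : Ch.Metric (2 * n) M.carrier) (hK : SecNonpos g)
    (h : (n = 3 ∧ (DenseCodazzi g ∨ (∃ lam, IsEinstein g lam) ∨ (ConnectedSpace M.carrier ∧ HarmonicCurvature g))) ∨ DenseClusters g) :
    ∃ χ : ℤ, IsEulerCharacteristic (2 * n) M.carrier χ ∧ 0 ≤ (-1) ^ n * χ ∧ ((∃ m : M.carrier, NegAt g m) → 0 < (-1) ^ n * χ) ∧
      (n = 3 → ∀ lam, IsEinstein g lam → χ = 0 → ∀ m : M.carrier, ∃ e : Fin (2 * n) → Fin (2 * n) → ℝ,
        (∀ i j, ∑ k, ∑ l, g.mat m (chartAt (EE (2 * n)) m m) k l * e k i * e l j = if i = j then 1 else 0) ∧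
        ∀ i j k l, ∑ a, ∑ b, ∑ c, ∑ f, riem (g.mat m) (chartAt (EE (2 * n)) m m) a b c f * e a i * e b j * e c k * e f l =
            if (i.1 < 3 ↔ j.1 < 3) then (lam / 2) * ((if i = k then 1 else 0) * (if j = l then 1 else 0) - (if i = l then 1 else 0) * (if j = k then 1 else 0))
            else 0) := by
  refine H56F.main_clust hn M g hK ?_
  rcases h with ⟨h3, h | h | h⟩ | h
  · exact Or.inr ⟨h3, Or.inr (Or.inr (Or.inl h))⟩
  · exact Or.inr ⟨h3, Or.inl h⟩
  · exact Or.inr ⟨h3, Or.inr (Or.inl h)⟩
  · exact Or.inl (dense h)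

end Pool.Agent.Results.MP_5a30bb_gt.WarpedClusters
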